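import Pool.Agent.H.MP_f42bc2_nt.A

namespace Pool.Agent.Results.MP_f42bc2_nt.NotOpen

open Pool.Agent.H.MP_f42bc2_nt

/-- The weighted norm `|N a| (c/2)^v`, `v` the exponent of the prime `(sqrt 2)` in `(a)`. -/
noncomputable def wnorm (c : ℝ) (a : ℤ√2) : ℝ :=
  |(a.norm : ℝ)| * (c / 2) ^ multiplicity (Ideal.span {(Zsqrtd.sqrtd : ℤ√2)}) (Ideal.span {a})

/-- Euclidean function, conditions (i)-(iii). -/
def IsEucl (f : ℤ√2 → ℝ) : Prop :=
  (∀ l : ℝ, 0 ≤ l → (Set.range f ∩ Set.Icc 0 l).Finite) ∧ (∀ r, f r = 0 ↔ r = 0) ∧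
    ∀ a b, b ≠ 0 → ∃ q, f (a - b * q) < f b

theorem result : IsLeast {c : ℝ | 0 < c ∧ IsEucl (wnorm c)} 2 ∧
    ¬ IsOpen {c : ℝ | 0 < c ∧ IsEucl (wnorm c)} := by
  have h2 : ∀ a, wnorm 2 a = ((|a.norm| : ℤ) : ℝ) := by
    intro a
    simp [wnorm]
  have main : IsLeast {c : ℝ | 0 < c ∧ IsEucl (wnorm c)} 2 := by
    refine ⟨⟨by norm_num, fun l _ => ?_, fun r => ?_, fun a b hb => ?_⟩, ?_⟩
    · refine ((Set.finite_Icc 0 ⌈l⌉).image (Int.cast : ℤ → ℝ)).subset ?_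
      rintro _ ⟨⟨a, rfl⟩, -, h⟩
      rw [h2] at h ⊢
      exact ⟨_, ⟨abs_nonneg _, by exact_mod_cast h.trans (Int.le_ceil l)⟩, rfl⟩
    · rw [h2, Int.cast_eq_zero, abs_eq_zero, Zsqrtd.norm_eq_zero nsq]
    · obtain ⟨q, hq⟩ := eucl a b hb
      exact ⟨q, by rw [h2, h2]; exact_mod_cast hq⟩
    · rintro c ⟨c0, -, -, h⟩
      by_contra hc
      have c1 : c / 2 < 1 := by linarith [not_le.1 hc]
      have c2 : 0 < c / 2 := by linarith
      obtain ⟨j, hj⟩ := exists_pow_lt_of_lt_one (show (0 : ℝ) < 1 / 108 by norm_num) c1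
      obtain ⟨e, e1, e2, g, e3⟩ := unit j
      have e4 : e = 2 * (2 ^ (j + 1) * g) + 1 := by linear_combination e3
      have eo : ¬ 2 ∣ e.re := by
        rw [e4]
        simp only [Zsqrtd.re_add, Zsqrtd.re_mul, Zsqrtd.re_ofNat, Zsqrtd.im_ofNat, Zsqrtd.re_one]
        omega
      have hb : e - 1 ≠ 0 := by
        intro c
        rw [sub_eq_zero.1 c, map_one] at e2
        norm_num at e2
      have hbn : (e - 1).norm ≠ 0 := fun c => hb ((Zsqrtd.norm_eq_zero nsq _).1 c)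
      obtain ⟨q, hq⟩ := h (1 + 2 * (2 ^ j * g)) (e - 1) hb
      set a : ℤ√2 := 1 + 2 * (2 ^ j * g) - (e - 1) * q with ha
      have l := lower e e1 eo e2 (1 - 2 * q) (by
        simp only [Zsqrtd.re_sub, Zsqrtd.re_mul, Zsqrtd.re_ofNat, Zsqrtd.im_ofNat, Zsqrtd.re_one]
        omega)
      have e5 : (e - 1) * (1 - 2 * q) + 2 = 2 * a := by
        rw [ha, e3]
        ring
      rw [e5, Zsqrtd.norm_mul, show (2 : ℤ√2).norm = 4 by decide, Int.cast_mul, abs_mul] at l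
      have va : multiplicity (Ideal.span {(Zsqrtd.sqrtd : ℤ√2)}) (Ideal.span {a}) = 0 := by
        rw [multiplicity_eq_zero, ← pow_one (Ideal.span {(Zsqrtd.sqrtd : ℤ√2)}), dvd_iff, pow_one]
        rintro ⟨d, hd⟩
        have e6 : a = 1 + 2 * (2 ^ j * g - 2 ^ (j + 1) * g * q) := by
          rw [ha, e3]
          ring
        have := congrArg Zsqrtd.re (e6.symm.trans hd)
        simp only [Zsqrtd.re_add, Zsqrtd.re_mul, Zsqrtd.re_ofNat, Zsqrtd.im_ofNat, Zsqrtd.re_one,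
          Zsqrtd.re_sqrtd, Zsqrtd.im_sqrtd] at this
        omega
      have vb := (fin _ hbn).le_multiplicity_of_pow_dvd ((dvd_iff j _).2 (by
        rw [e3]
        have : (Zsqrtd.sqrtd : ℤ√2) ∣ 2 := ⟨Zsqrtd.sqrtd, by decide⟩
        exact ((pow_dvd_pow_of_dvd this j).trans (pow_dvd_pow 2 (by omega))).mul_right g))
      have p1 := (pow_le_pow_of_le_one c2.le c1.le vb).trans hj.le
      have p2 := mul_le_mul_of_nonneg_left p1 (abs_nonneg ((e - 1).norm : ℝ))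
      unfold wnorm at hq
      rw [va, pow_zero, mul_one] at hq
      norm_num at l
      linarith
  refine ⟨main, fun h => ?_⟩
  obtain ⟨d, d0, hd⟩ := Metric.isOpen_iff.1 h 2 main.1
  have := main.2 (hd (show 2 - d / 2 ∈ Metric.ball (2 : ℝ) d by
    rw [Metric.mem_ball, Real.dist_eq, abs_lt]
    constructor <;> linarith))
  linarith

end Pool.Agent.Results.MP_f42bc2_nt.NotOpen
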